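import Pool.Agent.Q275.RT.Stm

/-! Job BND of the project RT (helper58): sums of few distinct primes. -/

set_option autoImplicit false

namespace Pool.Agent.Q58.RT

open Finset Pool.Agent.Q275.RT

/-- distinct positive integers have a large sum -/
theorem card_sq_le (U : Finset ℕ) (hU : ∀ p ∈ U, 1 ≤ p) :
    U.card * (U.card + 1) ≤ 2 * ∑ p ∈ U, p := by
  classical
  induction U using Finset.induction_on_max with
  | empty => simp
  | insert a s ha ih =>
    have hs : ∀ p ∈ s, 1 ≤ p := fun p hp => hU p (mem_insert_of_mem hp)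
    have hna : a ∉ s := fun h => lt_irrefl _ (ha a h)
    have h1 : 1 ≤ a := hU a (mem_insert_self _ _)
    have hsub : s ⊆ Ico 1 a := fun p hp => mem_Ico.2 ⟨hs p hp, ha p hp⟩
    have hc : s.card ≤ a - 1 := by
      have := card_le_card hsub
      rwa [Nat.card_Ico] at this
    have hc' : s.card + 1 ≤ a := by omega
    rw [card_insert_of_notMem hna, sum_insert hna]
    have := ih hs
    nlinarith

theorem pair_exists {s Y : ℕ} (hs : Y < s) (hg : Good s) (V : Finset ℕ)
    (hV : (2 * V.card + 1) ^ 3 ≤ 4 * Y ^ 2) :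
    ∃ p q : ℕ, p.Prime ∧ q.Prime ∧ p ≠ q ∧ p ∉ V ∧ q ∉ V ∧ p + q = 2 * s := by
  classical
  have h1 : (2 * V.card + 1) ^ 3 < rep (2 * s) ^ 3 := by
    calc (2 * V.card + 1) ^ 3 ≤ 4 * Y ^ 2 := hV
      _ < (2 * s) ^ 2 := by nlinarith
      _ ≤ rep (2 * s) ^ 3 := hg
  have h2 : 2 * V.card + 1 < rep (2 * s) := lt_of_pow_lt_pow_left₀ 3 (Nat.zero_le _) h1
  let R := (range (2 * s + 1)).filter (fun p => p.Prime ∧ (2 * s - p).Prime)
  let bad : Finset ℕ := (V ∪ V.image (fun x => 2 * s - x)) ∪ {s}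
  have hbad : bad.card ≤ 2 * V.card + 1 := by
    calc bad.card ≤ (V ∪ V.image (fun x => 2 * s - x)).card + ({s} : Finset ℕ).card :=
          card_union_le _ _
      _ ≤ (V.card + (V.image (fun x => 2 * s - x)).card) + 1 := by
          have := card_union_le V (V.image (fun x => 2 * s - x))
          rw [card_singleton]; omega
      _ ≤ 2 * V.card + 1 := by
          have := card_image_le (s := V) (f := fun x => 2 * s - x)
          omega
  have hlt : bad.card < R.card := lt_of_le_of_lt hbad h2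
  obtain ⟨p, hpR, hpb⟩ := exists_mem_notMem_of_card_lt_card hlt
  rw [mem_filter, mem_range] at hpR
  obtain ⟨hp1, hp2, hp3⟩ := hpR
  rw [mem_union, mem_union, mem_image, mem_singleton, not_or, not_or] at hpb
  obtain ⟨⟨b1, b2⟩, b3⟩ := hpb
  refine ⟨p, 2 * s - p, hp2, hp3, by omega, b1, fun h => b2 ⟨2 * s - p, h, by omega⟩, by omega⟩

theorem add_pairs {Y : ℕ} (l : List ℕ) : (∀ s ∈ l, Y < s ∧ Good s) → ∀ V : Finset ℕ,
    (∀ p ∈ V, p.Prime) → (2 * (V.card + 2 * l.length) + 1) ^ 3 ≤ 4 * Y ^ 2 →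
    ∃ U : Finset ℕ, (∀ p ∈ U, p.Prime) ∧ ∑ p ∈ U, p = ∑ p ∈ V, p + 2 * l.sum ∧
      U.card ≤ V.card + 2 * l.length := by
  classical
  induction l with
  | nil => intro _ V hV _; exact ⟨V, hV, by simp, by simp⟩
  | cons s l ih =>
    intro hl V hV hc
    rw [List.length_cons] at hc
    have hc1 : (2 * V.card + 1) ^ 3 ≤ 4 * Y ^ 2 :=
      le_trans (Nat.pow_le_pow_left (by omega) 3) hc
    obtain ⟨p, q, hp, hq, hpq, hpV, hqV, hs⟩ :=
      pair_exists (hl s List.mem_cons_self).1 (hl s List.mem_cons_self).2 V hc1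
    have hp' : p ∉ insert q V := by
      rw [mem_insert, not_or]; exact ⟨hpq, hpV⟩
    have hcard : (insert p (insert q V)).card = V.card + 2 := by
      rw [card_insert_of_notMem hp', card_insert_of_notMem hqV]
    obtain ⟨U, hU1, hU2, hU3⟩ := ih (fun t ht => hl t (List.mem_cons_of_mem _ ht))
      (insert p (insert q V)) (by
        intro r hr
        rw [mem_insert, mem_insert] at hr
        rcases hr with rfl | rfl | hr
        · exact hp
        · exact hq
        · exact hV r hr) (by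
        rw [hcard]
        refine le_trans (le_of_eq ?_) hc
        congr 1
        ring)
    refine ⟨U, hU1, ?_, ?_⟩
    · rw [hU2, sum_insert hp', sum_insert hqV, List.sum_cons]
      omega
    · rw [List.length_cons]
      rw [hcard] at hU3
      omega

theorem small_sum (Y : ℕ) (l : List ℕ) :
    (l.filter (fun s => ¬ Y < s)).sum ≤ l.length * Y := by
  induction l with
  | nil => simp
  | cons a l ih =>
    by_cases h : Y < a
    · rw [List.filter_cons_of_neg (by simpa using h), List.length_cons]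
      nlinarith
    · rw [List.filter_cons_of_pos (by simpa using h), List.sum_cons, List.length_cons]
      nlinarith

theorem split_sum (Y : ℕ) (l : List ℕ) :
    (l.filter (fun s => Y < s)).sum + (l.filter (fun s => ¬ Y < s)).sum = l.sum := by
  induction l with
  | nil => simp
  | cons a l ih =>
    by_cases h : Y < a
    · rw [List.filter_cons_of_neg (p := fun s => decide (¬ Y < s)) (by simpa using h),
        List.filter_cons_of_pos (by simpa using h), List.sum_cons, List.sum_cons]
      omega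
    · rw [List.filter_cons_of_pos (p := fun s => decide (¬ Y < s)) (by simpa using h),
        List.filter_cons_of_neg (by simpa using h), List.sum_cons, List.sum_cons]
      omega

theorem bnd : S_BAS → S_RICH → S_BND := by
  classical
  rintro ⟨K, B, hbas⟩ hrich
  obtain ⟨L, hL⟩ : ∃ L, L = (9 + 6 * K) ^ 3 + B := ⟨_, rfl⟩
  obtain ⟨Y, hY⟩ : ∃ Y, Y = L ^ 2 := ⟨_, rfl⟩
  have hL1 : 1 ≤ L := by
    have : 1 ≤ (9 + 6 * K) ^ 3 := Nat.one_le_pow _ _ (by omega)
    omega
  have hLK : (9 + 6 * K) ^ 3 ≤ L := by omega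
  have hYB : B ≤ Y := by
    have : B ≤ L := by omega
    rw [hY]
    nlinarith
  refine ⟨(4 + K) * L + 2 * K, fun N hN => ?_⟩
  obtain ⟨l, hl1, hl2, hl3⟩ := hbas ((N - 7) / 2)
  have hbig : ∀ s ∈ l.filter (fun s => Y < s), Y < s ∧ Good s := by
    intro s hs
    rw [List.mem_filter] at hs
    have h1 : Y < s := by simpa using hs.2
    refine ⟨h1, (hl2 s hs.1).resolve_left ?_⟩
    omega
  have hss := small_sum Y l
  have hsp := split_sum Y l
  set big := l.filter (fun s => Y < s) with hbigdef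
  set sm := (l.filter (fun s => ¬ Y < s)).sum with hsmdef
  have hlen : big.length ≤ K := by
    rw [← hl1]; exact List.length_filter_le _ _
  obtain ⟨U₀, hU1, hU2⟩ := hrich (7 + (N - 7) % 2 + 2 * sm) (by omega)
  have hu : U₀.card ≤ (4 + K) * L := by
    have h1 := card_sq_le U₀ (fun p hp => (hU1 p hp).one_lt.le)
    rw [hU2] at h1
    have h2 : U₀.card * U₀.card ≤ ((4 + K) * L) * ((4 + K) * L) := by
      have h3 : 7 + (N - 7) % 2 + 2 * sm ≤ 8 + 2 * (K * Y) := by
        rw [hl1] at hss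
        omega
      have h4 : 16 + 4 * (K * Y) ≤ ((4 + K) * L) * ((4 + K) * L) := by
        rw [hY]
        have : 1 ≤ L ^ 2 := Nat.one_le_pow _ _ hL1
        nlinarith [Nat.zero_le (K * L ^ 2), Nat.zero_le (K ^ 2 * L ^ 2)]
      nlinarith
    exact Nat.mul_self_le_mul_self_iff.1 h2
  obtain ⟨U, hV1, hV2, hV3⟩ := add_pairs (Y := Y) big hbig U₀ hU1 (by
    have h1 : 2 * (U₀.card + 2 * big.length) + 1 ≤ (9 + 6 * K) * L := by nlinarith
    calc (2 * (U₀.card + 2 * big.length) + 1) ^ 3 ≤ ((9 + 6 * K) * L) ^ 3 :=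
          Nat.pow_le_pow_left h1 3
      _ = (9 + 6 * K) ^ 3 * L ^ 3 := by ring
      _ ≤ L * L ^ 3 := Nat.mul_le_mul_right _ hLK
      _ ≤ 4 * Y ^ 2 := by
          rw [hY]
          have : L * L ^ 3 = (L ^ 2) ^ 2 := by ring
          rw [this]
          omega)
  refine ⟨U, hV1, ?_, ?_⟩
  · rw [hV2, hU2]
    omega
  · omega

end Pool.Agent.Q58.RT
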